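import Pool.Agent.Helper42_CG.Stmt

/-!
DSUM: the weighted number of violators at a vertex.
-/

namespace Pool.Agent.CGP.H93

open SimpleGraph Pool.Agent.LAG Pool.Agent.LLG Pool.Agent.CGP

theorem inv_pow_eq {x : ℝ} (hx : 0 < x) (n : ℕ) : (x ^ n)⁻¹ = Real.exp (-(n * Real.log x)) := by
  rw [Real.exp_neg, Real.exp_nat_mul, Real.exp_log hx]

theorem pow_div_eq {x y : ℝ} (hx : 0 < x) (hy : 0 < y) (n : ℕ) :
    (x / y) ^ n = Real.exp (n * (Real.log x - Real.log y)) := by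
  rw [Real.exp_nat_mul, Real.exp_sub, Real.exp_log hx, Real.exp_log hy]

/-- the comparison of the exponents -/
theorem expo {K lk M lm B D0 a s c e h l fe fh r b bD o d1 dd u t : ℝ} (hK : 0 < K) (hM : 0 < M)
    (hB : 1 ≤ B) (hlk : 0 ≤ lk) (hlm : 0 ≤ lm) (hlmM : lm ≤ M) (ha : 0 ≤ a) (hs : 0 ≤ s)
    (ht : t ≤ 1) (ht0 : 0 ≤ t)
    (hl0 : 0 ≤ l) (hr0 : 0 ≤ r) (hc0 : 0 ≤ c) (he0 : 0 ≤ e)
    (hh0 : 0 ≤ h) (hb0 : 0 ≤ b) (ho : 0 ≤ o) (hfe0 : 0 ≤ fe) (hfh0 : 0 ≤ fh) (hu0 : 0 ≤ u)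
    (h30 : 30 * B * (lk + 1) ≤ M) (hD : 10 * a + 7 * s + 100 ≤ 4 / 5 * D0)
    (F1 : M * l ≤ M * fe + u) (F2 : M * r ≤ h) (F3 : fe ≤ e) (F3' : fh ≤ h)
    (F4 : K * (e + h) ≤ 5 * bD) (F5 : b ≤ bD) (F6 : M ≤ dd) (F7 : bD ≤ 2 * o) (F8 : dd ≤ 2 * d1)
    (F9 : u ≤ dd + h) (F10 : c ≤ u) :
    (fe + fh) * (a - lk) + -(4 / 5 * D0 * o / K + 2 / 5 * d1 / B) ≤
      -(M / (10 * B)) + (-((16 / 5 * s + 4) * b / K + 4 * e + 2 * lk * c / M) + -(l * lk) +
      (-(l * t) + (-(2 * b / K + 2 * h + 2 * c / M) + (-(fh * lk) + -(r * lm))))) := by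
  have hB0 : 0 < B := by linarith
  set y : ℝ := o / K with hy
  have hy0 : 0 ≤ y := by positivity
  have hoy : o = y * K := by rw [hy]; field_simp
  have G1 : e + h ≤ 10 * y := by
    have h1 : K * (e + h) ≤ K * (10 * y) := by rw [hoy] at F7; nlinarith
    exact le_of_mul_le_mul_left h1 hK
  have G2 : b / K ≤ 2 * y := by
    rw [div_le_iff₀ hK]
    rw [hoy] at F7
    linarith
  set w : ℝ := u / M with hw
  have hw0 : 0 ≤ w := by positivity
  have G3 : l - fe ≤ w := by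
    rw [hw, le_div_iff₀ hM]
    linarith
  have G4 : r * lm ≤ 10 * y := by
    have h1 : r * lm ≤ r * M := mul_le_mul_of_nonneg_left hlmM hr0
    nlinarith
  have G5 : c / M ≤ w := by
    rw [hw]
    gcongr
  have G6 : (fe + fh) * a ≤ 10 * y * a := mul_le_mul_of_nonneg_right (by linarith) ha
  have G7 : (l - fe) * lk ≤ w * lk := mul_le_mul_of_nonneg_right G3 hlk
  have G8 : (16 / 5 * s + 4) * b / K ≤ (16 / 5 * s + 4) * (2 * y) := by
    rw [mul_div_assoc]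
    exact mul_le_mul_of_nonneg_left G2 (by linarith)
  have G9 : 2 * b / K ≤ 4 * y := by
    rw [mul_div_assoc]
    linarith
  have G10 : l * t ≤ 10 * y + w := by
    have h1 : l * t ≤ l * 1 := mul_le_mul_of_nonneg_left ht hl0
    linarith
  have G11 : 2 * lk * c / M ≤ 2 * lk * w := by
    rw [mul_div_assoc]
    exact mul_le_mul_of_nonneg_left G5 (by linarith)
  have G12 : 2 * c / M ≤ 2 * w := by
    rw [mul_div_assoc]
    linarith
  have G13 : 3 * (lk + 1) * w ≤ d1 / (5 * B) + y := by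
    have h1 : w * (30 * B * (lk + 1)) ≤ w * M := mul_le_mul_of_nonneg_left h30 hw0
    have h2 : w * M = u := by rw [hw]; field_simp
    have h3 : u ≤ 2 * d1 + 10 * y := by linarith
    have h4 : 3 * (lk + 1) * w * (10 * B) ≤ 2 * d1 + 10 * y := by
      calc 3 * (lk + 1) * w * (10 * B) = w * (30 * B * (lk + 1)) := by ring
        _ ≤ _ := by linarith
    have h5 : 3 * (lk + 1) * w ≤ (2 * d1 + 10 * y) / (10 * B) := by
      rw [le_div_iff₀ (by positivity)]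
      exact h4
    have h6 : (2 * d1 + 10 * y) / (10 * B) = d1 / (5 * B) + y / B := by
      field_simp
      ring
    have h7 : y / B ≤ y := div_le_self hy0 hB
    linarith
  have G14 : M / (10 * B) ≤ d1 / (5 * B) := by
    rw [div_le_div_iff₀ (by positivity) (by positivity)]
    nlinarith
  have G15 : 4 / 5 * D0 * o / K = 4 / 5 * D0 * y := by rw [hy]; ring
  have G16 : 2 / 5 * d1 / B = 2 * (d1 / (5 * B)) := by field_simp
  have G17 : y * (10 * a + 7 * s + 100) ≤ y * (4 / 5 * D0) := mul_le_mul_of_nonneg_left hD hy0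
  have G18 : 0 ≤ y * s := by positivity
  rw [G15, G16]
  clear h30 hD F1 F2 F3 F3' F4 F5 F6 F7 F8 F9 F10 hoy hw hy G3 G5 G2
  linarith

theorem dsum (hCE : CeStmt) (hHC : HcStmt) : DsumStmt := by
  classical
  intro W _ _ Γ Sd k s κ m bl D0 hN hdeg hThin v 𝒟 h𝒟
  obtain ⟨hk16, hkm, hbl, hD0, hm, hD, hks⟩ := hN
  have hkr : (16 : ℝ) ≤ k := by exact_mod_cast hk16
  have hk0 : (0 : ℝ) < k := by linarith
  have hmr : (16 : ℝ) ≤ m := hkr.trans (by exact_mod_cast hkm)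
  have hm0 : (0 : ℝ) < m := by linarith
  have hblr : (1 : ℝ) ≤ bl := by exact_mod_cast hbl
  have hD0r : (1 : ℝ) ≤ D0 := by exact_mod_cast hD0
  -- the pointwise inequality
  have point : ∀ d ∈ 𝒟, xH Γ Sd k D0 bl d ≤ Real.exp (-((m : ℝ) / (10 * bl))) *
      (wtE Γ k s m d.C d.E d.L * (((2 : ℝ) ^ d.L.card)⁻¹ * wtH Γ k m d.C d.H d.FH d.R)) := by
    intro d hd
    obtain ⟨-, ⟨-, -, -, h1, h2, h3, h4, h5, h6, h7⟩, h8, h9⟩ := h𝒟 d hd
    have e1 : (11 * (D0 : ℝ) / k) ^ (d.FE.card + d.FH.card) =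
        Real.exp (((d.FE.card : ℝ) + d.FH.card) * (Real.log (11 * D0) - Real.log k)) := by
      rw [pow_div_eq (by positivity) hk0]
      push_cast
      rfl
    unfold xH wtE wtH
    rw [e1, inv_pow_eq hk0, inv_pow_eq (by norm_num : (0 : ℝ) < 2), mul_inv, inv_pow_eq hk0,
      inv_pow_eq hm0]
    simp only [← Real.exp_add]
    apply Real.exp_le_exp.2
    have hu : (d.C ∪ d.E).card ≤ d.D.card + d.H.card := by
      unfold VC.D
      have := Finset.le_card_sdiff d.H (d.C ∪ d.E)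
      omega
    have hlog : Real.log (m : ℝ) ≤ m := by
      have := Real.log_le_sub_one_of_pos hm0
      linarith
    have hlog2 : Real.log 2 ≤ 1 := by
      have := Real.log_le_sub_one_of_pos (by norm_num : (0 : ℝ) < 2)
      linarith
    refine expo (bD := (bd Γ (d.D : Set W) : ℝ)) (dd := (d.D.card : ℝ))
      (u := ((d.C ∪ d.E).card : ℝ)) hk0 hm0 hblr (Real.log_nonneg (by linarith))
      (Real.log_nonneg (by linarith)) hlog (Real.log_nonneg (by linarith)) (Nat.cast_nonneg s)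
      hlog2 (Real.log_nonneg (by norm_num)) (by positivity) (by positivity) (by positivity)
      (by positivity) (by positivity) (by positivity) (by positivity) (by positivity)
      (by positivity) (by positivity) hm hD ?_ ?_ ?_ ?_ ?_ ?_ ?_ ?_ ?_ ?_ ?_
    · exact_mod_cast h1
    · exact_mod_cast h2
    · exact_mod_cast h3
    · exact_mod_cast h4
    · exact_mod_cast h5
    · exact_mod_cast h6
    · exact_mod_cast h7
    · exact_mod_cast h8
    · exact_mod_cast h9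
    · exact_mod_cast hu
    · exact_mod_cast Finset.card_le_card Finset.subset_union_left
  -- the sum
  let c : VC W → Finset W × Finset W × Finset (Sym2 W) := fun d => (d.C, d.E, d.L)
  let h : VC W → Finset W × Finset (Sym2 W) × Finset W := fun d => (d.H, d.FH, d.R)
  have hfib : ∀ x ∈ 𝒟.image c, ∑ d ∈ 𝒟 with c d = x,
      (wtE Γ k s m d.C d.E d.L * (((2 : ℝ) ^ d.L.card)⁻¹ * wtH Γ k m d.C d.H d.FH d.R)) ≤
      wtE Γ k s m x.1 x.2.1 x.2.2 := by
    intro x hx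
    have hwE : 0 ≤ wtE Γ k s m x.1 x.2.1 x.2.2 := by
      unfold wtE
      positivity
    let 𝒟x := 𝒟.filter fun d => c d = x
    have hc1 : ∀ d ∈ 𝒟x, d.C = x.1 ∧ d.E = x.2.1 ∧ d.L = x.2.2 := by
      intro d hd
      have := (Finset.mem_filter.1 hd).2
      rw [← this]
      exact ⟨rfl, rfl, rfl⟩
    have h1 : ∑ d ∈ 𝒟x, (wtE Γ k s m d.C d.E d.L *
        (((2 : ℝ) ^ d.L.card)⁻¹ * wtH Γ k m d.C d.H d.FH d.R)) =
        wtE Γ k s m x.1 x.2.1 x.2.2 * ∑ d ∈ 𝒟x, (((2 : ℝ) ^ x.2.2.card)⁻¹ *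
          wtH Γ k m x.1 (h d).1 (h d).2.1 (h d).2.2) := by
      rw [Finset.mul_sum]
      refine Finset.sum_congr rfl fun d hd => ?_
      obtain ⟨h2, h3, h4⟩ := hc1 d hd
      rw [h2, h3, h4]
    have h2 : ∑ d ∈ 𝒟x, (((2 : ℝ) ^ x.2.2.card)⁻¹ *
        wtH Γ k m x.1 (h d).1 (h d).2.1 (h d).2.2) ≤ 1 := by
      let f : VC W → Finset (Sym2 W) × (Finset W × Finset (Sym2 W) × Finset W) :=
        fun d => (d.FE, h d)
      have hinj : Set.InjOn f 𝒟x := by
        rintro ⟨C, E, H, L, FE, FH, R⟩ hd ⟨C', E', H', L', FE', FH', R'⟩ hd' he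
        obtain ⟨a1, a2, a3⟩ := hc1 _ hd
        obtain ⟨b1, b2, b3⟩ := hc1 _ hd'
        simp only [f, h, Prod.mk.injEq] at he
        simp only [Prod.mk.injEq]
        obtain ⟨g1, g2, g3, g4⟩ := he
        exact ⟨a1.trans b1.symm, a2.trans b2.symm, g2, a3.trans b3.symm, g1, g3, g4⟩
      have hsub : 𝒟x.image f ⊆ x.2.2.powerset ×ˢ (𝒟x.image h) := by
        intro z hz
        obtain ⟨d, hd, rfl⟩ := Finset.mem_image.1 hz
        rw [Finset.mem_product]
        refine ⟨?_, Finset.mem_image_of_mem h hd⟩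
        rw [Finset.mem_powerset, ← (hc1 d hd).2.2]
        exact (h𝒟 d (Finset.mem_filter.1 hd).1).2.1.2.1
      calc ∑ d ∈ 𝒟x, (((2 : ℝ) ^ x.2.2.card)⁻¹ * wtH Γ k m x.1 (h d).1 (h d).2.1 (h d).2.2)
          = ∑ z ∈ 𝒟x.image f, (((2 : ℝ) ^ x.2.2.card)⁻¹ *
            wtH Γ k m x.1 z.2.1 z.2.2.1 z.2.2.2) := by
            rw [Finset.sum_image hinj]
        _ ≤ ∑ z ∈ x.2.2.powerset ×ˢ (𝒟x.image h), (((2 : ℝ) ^ x.2.2.card)⁻¹ *
            wtH Γ k m x.1 z.2.1 z.2.2.1 z.2.2.2) := by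
            refine Finset.sum_le_sum_of_subset_of_nonneg hsub fun z _ _ => ?_
            unfold wtH
            positivity
        _ = ∑ _z ∈ x.2.2.powerset, (((2 : ℝ) ^ x.2.2.card)⁻¹ *
            ∑ g ∈ 𝒟x.image h, wtH Γ k m x.1 g.1 g.2.1 g.2.2) := by
            rw [Finset.sum_product]
            refine Finset.sum_congr rfl fun z _ => ?_
            rw [Finset.mul_sum]
        _ = ∑ g ∈ 𝒟x.image h, wtH Γ k m x.1 g.1 g.2.1 g.2.2 := by
            rw [Finset.sum_const, Finset.card_powerset, nsmul_eq_mul, ← mul_assoc]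
            push_cast
            rw [mul_inv_cancel₀ (by positivity), one_mul]
        _ ≤ 1 := by
            refine hHC W Γ k m (by omega) (by omega) (fun v => (hdeg v).le) x.1 _ ?_
            intro g hg
            obtain ⟨d, hd, rfl⟩ := Finset.mem_image.1 hg
            rw [← (hc1 d hd).1]
            exact (h𝒟 d (Finset.mem_filter.1 hd).1).2.1.2.2.1
    calc ∑ d ∈ 𝒟x, (wtE Γ k s m d.C d.E d.L *
        (((2 : ℝ) ^ d.L.card)⁻¹ * wtH Γ k m d.C d.H d.FH d.R))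
        = _ := h1
      _ ≤ wtE Γ k s m x.1 x.2.1 x.2.2 * 1 := mul_le_mul_of_nonneg_left h2 hwE
      _ = _ := mul_one _
  have hsum : ∑ d ∈ 𝒟, (wtE Γ k s m d.C d.E d.L *
      (((2 : ℝ) ^ d.L.card)⁻¹ * wtH Γ k m d.C d.H d.FH d.R)) ≤ 2 := by
    rw [← Finset.sum_fiberwise_of_maps_to (g := c) (t := 𝒟.image c)
      (fun d hd => Finset.mem_image_of_mem c hd)]
    refine (Finset.sum_le_sum hfib).trans ?_
    refine hCE W Γ k s κ m (by omega) (by omega) hdeg hThin hks v _ ?_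
    intro x hx
    obtain ⟨d, hd, rfl⟩ := Finset.mem_image.1 hx
    exact ⟨(h𝒟 d hd).1, (h𝒟 d hd).2.1.1⟩
  have hlogk : 0 ≤ Real.log k := Real.log_nonneg (by linarith)
  have hlarge : 1 ≤ (m : ℝ) / (20 * bl) := by
    rw [le_div_iff₀ (by positivity)]
    nlinarith
  calc ∑ d ∈ 𝒟, xH Γ Sd k D0 bl d ≤ ∑ d ∈ 𝒟, Real.exp (-((m : ℝ) / (10 * bl))) *
      (wtE Γ k s m d.C d.E d.L * (((2 : ℝ) ^ d.L.card)⁻¹ * wtH Γ k m d.C d.H d.FH d.R)) :=
        Finset.sum_le_sum point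
    _ = Real.exp (-((m : ℝ) / (10 * bl))) * ∑ d ∈ 𝒟, (wtE Γ k s m d.C d.E d.L *
      (((2 : ℝ) ^ d.L.card)⁻¹ * wtH Γ k m d.C d.H d.FH d.R)) := by rw [Finset.mul_sum]
    _ ≤ Real.exp (-((m : ℝ) / (10 * bl))) * 2 :=
        mul_le_mul_of_nonneg_left hsum (Real.exp_pos _).le
    _ ≤ Real.exp (-((m : ℝ) / (10 * bl))) * Real.exp ((m : ℝ) / (20 * bl)) := by
        refine mul_le_mul_of_nonneg_left ?_ (Real.exp_pos _).le
        have h1 := Real.add_one_le_exp ((m : ℝ) / (20 * bl))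
        linarith
    _ = Real.exp (-(m : ℝ) / (20 * bl)) := by
        rw [← Real.exp_add]
        congr 1
        field_simp
        ring

end Pool.Agent.CGP.H93
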