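import Pool.Agent.Helper42_CG.Stmt

/-!
HC: the weighted number of systems of holes.
-/

namespace Pool.Agent.CGP.H93

open SimpleGraph Pool.Agent.LAG Pool.Agent.LLG Pool.Agent.CGP

/-! ### Orientation of the links -/

section orient

variable {W : Type}

/-- the levels of the exploration along the links -/
def lev (C R : Finset W) (F : Finset (Sym2 W)) : ℕ → Set W
  | 0 => {w | w ∈ R ∨ w ∉ C}
  | n + 1 => {w | w ∈ lev C R F n ∨ ∃ w' ∈ lev C R F n, s(w', w) ∈ F}

/-- the level of a vertex -/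
noncomputable def lv (C R : Finset W) (F : Finset (Sym2 W)) (w : W) : ℕ :=
  sInf {n | w ∈ lev C R F n}

theorem exists_lev {Γ : SimpleGraph W} {C R : Finset W} {F : Finset (Sym2 W)} {a w : W}
    (ha : a ∈ R ∨ a ∉ C) (h : (lnk Γ ∅ (F : Set (Sym2 W))).Reachable a w) :
    ∃ n, w ∈ lev C R F n := by
  rw [SimpleGraph.reachable_iff_reflTransGen] at h
  induction h with
  | refl => exact ⟨0, ha⟩
  | tail _ hbc ih =>
    obtain ⟨n, hn⟩ := ih
    refine ⟨n + 1, Or.inr ⟨_, hn, ?_⟩⟩
    rcases hbc.2 with h | h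
    · exact absurd h.1 (Set.notMem_empty _)
    · exact h

theorem lv_le {C R : Finset W} {F : Finset (Sym2 W)} {w : W} {n : ℕ} (h : w ∈ lev C R F n) :
    lv C R F w ≤ n := Nat.sInf_le h

theorem orient [DecidableEq W] {Γ : SimpleGraph W} {C H : Finset W} {F : Finset (Sym2 W)} {R : Finset W}
    (h : CertH Γ C H F R) : ∃ D : Finset (W × W), D.card = F.card ∧
      (∀ l, l ∈ F ↔ ∃ p ∈ D, s(p.1, p.2) = l) ∧
      (∀ p ∈ D, Γ.Adj p.1 p.2 ∧ (p.1 ∈ H ∨ p.1 ∉ C) ∧ p.2 ∈ H) ∧
      ∀ X : Finset W, R ⊆ X → (∀ p ∈ D, (p.1 ∈ X ∨ p.1 ∉ C) → p.2 ∈ X) → H ⊆ X := by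
  classical
  obtain ⟨hHC, hRH, hF, hreach⟩ := h
  have key : ∀ l ∈ F, ∃ p : W × W, s(p.1, p.2) = l ∧ Γ.Adj p.1 p.2 ∧ (p.1 ∈ H ∨ p.1 ∉ C) ∧
      p.2 ∈ H ∧ (p.1 ∈ C → lv C R F p.1 ≤ lv C R F p.2) := by
    intro l hl
    induction l using Sym2.ind with
    | _ a b =>
      obtain ⟨h1, ⟨w, hw, hwH⟩, h3⟩ := hF _ hl
      rw [SimpleGraph.mem_edgeSet] at h1
      have ha := h3 a (Sym2.mem_mk_left a b)
      have hb := h3 b (Sym2.mem_mk_right a b)
      by_cases hbH : b ∈ H
      · by_cases haH : a ∈ H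
        · rcases le_total (lv C R F a) (lv C R F b) with h4 | h4
          · exact ⟨(a, b), rfl, h1, Or.inl haH, hbH, fun _ => h4⟩
          · exact ⟨(b, a), Sym2.eq_swap, h1.symm, Or.inl hbH, haH, fun _ => h4⟩
        · have haC : a ∉ C := ha.resolve_left haH
          exact ⟨(a, b), rfl, h1, Or.inr haC, hbH, fun h => absurd h haC⟩
      · have hbC : b ∉ C := hb.resolve_left hbH
        have haH : a ∈ H := by
          rw [Sym2.mem_iff] at hw
          rcases hw with rfl | rfl
          · exact hwH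
          · exact absurd hwH hbH
        exact ⟨(b, a), Sym2.eq_swap, h1.symm, Or.inr hbC, haH, fun h => absurd h hbC⟩
  obtain ⟨g, hg⟩ : ∃ g : Sym2 W → W × W, ∀ l ∈ F, s((g l).1, (g l).2) = l ∧
      Γ.Adj (g l).1 (g l).2 ∧ ((g l).1 ∈ H ∨ (g l).1 ∉ C) ∧ (g l).2 ∈ H ∧
      ((g l).1 ∈ C → lv C R F (g l).1 ≤ lv C R F (g l).2) := by
    refine ⟨fun l => if h : l ∈ F then (key l h).choose else Quot.out l, fun l hl => ?_⟩
    beta_reduce
    rw [dif_pos hl]
    exact (key l hl).choose_spec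
  have hgi : Set.InjOn g F := by
    intro l hl l' hl' he
    rw [← (hg l hl).1, ← (hg l' hl').1, he]
  refine ⟨F.image g, Finset.card_image_of_injOn hgi, ?_, ?_, ?_⟩
  · intro l
    constructor
    · intro hl
      exact ⟨g l, Finset.mem_image_of_mem g hl, (hg l hl).1⟩
    · rintro ⟨p, hp, rfl⟩
      obtain ⟨l, hl, rfl⟩ := Finset.mem_image.1 hp
      rw [(hg l hl).1]
      exact hl
  · intro p hp
    obtain ⟨l, hl, rfl⟩ := Finset.mem_image.1 hp
    obtain ⟨-, h2, h3, h4, -⟩ := hg l hl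
    exact ⟨h2, h3, h4⟩
  · intro X hRX hX
    have hall : ∀ n, ∀ w ∈ H, lv C R F w = n → w ∈ X := by
      intro n
      induction n using Nat.strong_induction_on with
      | _ n ih =>
        intro w hw hn
        obtain ⟨a, ha, hra⟩ := hreach w hw
        have hne : {n | w ∈ lev C R F n}.Nonempty := exists_lev ha hra
        have hmem : w ∈ lev C R F (lv C R F w) := Nat.sInf_mem hne
        rcases Nat.eq_zero_or_pos n with h0 | h0
        · rw [hn, h0] at hmem
          rcases hmem with h | h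
          · exact hRX h
          · exact absurd (hHC hw) h
        · obtain ⟨m, rfl⟩ := Nat.exists_eq_succ_of_ne_zero h0.ne'
          rw [hn] at hmem
          rcases hmem with h | ⟨w', hw', hF'⟩
          · have := lv_le h
            omega
          · have hlt : lv C R F w' < lv C R F w := by
              have := lv_le hw'
              omega
            obtain ⟨h1, -, h3, h4, h5⟩ := hg _ hF'
            have h6 : g s(w', w) ∈ F.image g := Finset.mem_image_of_mem g hF'
            rw [Sym2.eq_iff] at h1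
            rcases h1 with ⟨e1, e2⟩ | ⟨e1, e2⟩
            · have h7 := hX _ h6
              rw [e1, e2] at h7
              rw [e1] at h3
              apply h7
              rcases h3 with h3 | h3
              · exact Or.inl (ih _ (hn ▸ hlt) w' h3 rfl)
              · exact Or.inr h3
            · rw [e1, e2] at h5
              have := h5 (hHC hw)
              omega
    exact fun w hw => hall _ w hw rfl

end orient

/-! ### Counting in a product -/

theorem exp_le (k : ℕ) (hk : 2 ≤ k) : Real.exp (-(2 / (k : ℝ))) ≤ 1 - 1 / k := by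
  have hk' : (2 : ℝ) ≤ k := by exact_mod_cast hk
  have h1 : (1 : ℝ) / k ≤ 1 / 2 := by
    apply one_div_le_one_div_of_le <;> linarith
  have h0 : (0 : ℝ) ≤ 1 / k := by positivity
  set x : ℝ := 1 / k with hx
  have h2 : 2 / (k : ℝ) = 2 * x := by rw [hx]; ring
  rw [h2]
  -- `1 ≤ (1 - x) e^{2x}`
  have h3 : (1 - x) * Real.exp (2 * x) ≥ 1 := by
    have h4 : Real.exp (2 * x) ≥ 1 + 2 * x := by
      have := Real.add_one_le_exp (2 * x)
      linarith
    nlinarith
  have h5 : 0 < Real.exp (2 * x) := Real.exp_pos _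
  rw [Real.exp_neg, inv_le_iff_one_le_mul₀ h5]
  linarith

theorem cnt {ι : Type} [Fintype ι] [DecidableEq ι] {k : ℕ} (hk : 2 ≤ k) (S D : Finset ι)
    (hD : D ⊆ S) : (k : ℝ) ^ Fintype.card ι * (((k : ℝ) ^ D.card)⁻¹ *
      Real.exp (-(2 * (S.card : ℝ) / k))) ≤
    ((Finset.univ.filter fun b : ι → Fin k => ∀ i ∈ S, ((b i).val = 0 ↔ i ∈ D)).card : ℝ) := by
  classical
  have hk0 : (0 : ℝ) < k := by
    have : 0 < k := by omega
    exact_mod_cast this
  let t : ι → Finset (Fin k) := fun i =>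
    Finset.univ.filter fun c : Fin k => i ∈ S → (c.val = 0 ↔ i ∈ D)
  have h1 : (Finset.univ.filter fun b : ι → Fin k => ∀ i ∈ S, ((b i).val = 0 ↔ i ∈ D)) =
      Fintype.piFinset t := by
    ext b
    simp [t, Fintype.mem_piFinset]
  rw [h1, Fintype.card_piFinset, Nat.cast_prod]
  have hzero : (Finset.univ.filter fun c : Fin k => c.val = 0) = {⟨0, by omega⟩} := by
    ext c
    simp [Fin.ext_iff]
  have hcard0 : (Finset.univ.filter fun c : Fin k => c.val = 0).card = 1 := by
    rw [hzero, Finset.card_singleton]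
  have hcard1 : (Finset.univ.filter fun c : Fin k => ¬ c.val = 0).card = k - 1 := by
    have h := Finset.card_filter_add_card_filter_not (s := (Finset.univ : Finset (Fin k)))
      (fun c => c.val = 0)
    rw [hcard0, Finset.card_univ, Fintype.card_fin] at h
    omega
  have h2 : ∀ i, (k : ℝ) * ((if i ∈ D then ((k : ℝ))⁻¹ else 1) *
      (if i ∈ S then Real.exp (-(2 / (k : ℝ))) else 1)) ≤ ((t i).card : ℝ) := by
    intro i
    have he := exp_le k hk
    have he1 : Real.exp (-(2 / (k : ℝ))) ≤ 1 := by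
      refine he.trans ?_
      have : (0 : ℝ) ≤ 1 / k := by positivity
      linarith
    by_cases hiD : i ∈ D
    · have hiS := hD hiD
      have ht : t i = Finset.univ.filter fun c : Fin k => c.val = 0 := by
        ext c
        simp [t, hiS, hiD]
      rw [ht, hcard0, if_pos hiD, if_pos hiS, ← mul_assoc, mul_inv_cancel₀ hk0.ne', one_mul]
      simpa using he1
    · by_cases hiS : i ∈ S
      · have ht : t i = Finset.univ.filter fun c : Fin k => ¬ c.val = 0 := by
          ext c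
          simp [t, hiS, hiD]
        rw [ht, hcard1, if_neg hiD, if_pos hiS, one_mul, Nat.cast_sub (by omega), Nat.cast_one]
        calc (k : ℝ) * Real.exp (-(2 / (k : ℝ))) ≤ k * (1 - 1 / k) :=
              mul_le_mul_of_nonneg_left he hk0.le
          _ = k - 1 := by field_simp
      · have ht : t i = Finset.univ := by
          ext c
          simp [t, hiS]
        rw [ht, if_neg hiD, if_neg hiS, Finset.card_univ, Fintype.card_fin]
        simp
  have h3 : ∏ i : ι, ((k : ℝ) * ((if i ∈ D then ((k : ℝ))⁻¹ else 1) *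
      (if i ∈ S then Real.exp (-(2 / (k : ℝ))) else 1))) =
      (k : ℝ) ^ Fintype.card ι * (((k : ℝ) ^ D.card)⁻¹ * Real.exp (-(2 * (S.card : ℝ) / k))) := by
    rw [Finset.prod_mul_distrib, Finset.prod_mul_distrib, Finset.prod_const, Finset.card_univ,
      Finset.prod_ite_mem, Finset.prod_ite_mem, Finset.univ_inter, Finset.univ_inter,
      Finset.prod_const, Finset.prod_const, inv_pow, ← Real.exp_nat_mul]
    congr 3
    ring
  rw [← h3]
  refine Finset.prod_le_prod (fun i _ => ?_) (fun i _ => h2 i)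
  refine mul_nonneg hk0.le (mul_nonneg ?_ ?_)
  · split_ifs <;> positivity
  · split_ifs <;> positivity

/-! ### The theorem -/

open Classical in
/-- the pairs which are explored -/
noncomputable def prel {W : Type} [Fintype W] (Γ : SimpleGraph W) (C H : Finset W) :
    Finset (W × W) :=
  Finset.univ.filter fun p => Γ.Adj p.1 p.2 ∧ (p.1 ∈ H ∨ p.1 ∉ C) ∧ p.2 ∈ C

theorem card_prel {W : Type} [Fintype W] [DecidableEq W] (Γ : SimpleGraph W) {k : ℕ}
    (hdeg : ∀ v, (Γ.neighborSet v).ncard ≤ k) (C H : Finset W) :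
    (prel Γ C H).card ≤ bd Γ (C : Set W) + k * H.card := by
  classical
  have h1 : prel Γ C H ⊆ (Finset.univ.filter fun p : W × W => Γ.Adj p.1 p.2 ∧ p.1 ∉ C ∧ p.2 ∈ C) ∪
      (Finset.univ.filter fun p : W × W => Γ.Adj p.1 p.2 ∧ p.1 ∈ H) := by
    intro p hp
    simp only [prel, Finset.mem_filter, Finset.mem_univ, true_and] at hp
    simp only [Finset.mem_union, Finset.mem_filter, Finset.mem_univ, true_and]
    tauto
  have h2 : (Finset.univ.filter fun p : W × W => Γ.Adj p.1 p.2 ∧ p.1 ∉ C ∧ p.2 ∈ C).card =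
      bd Γ (C : Set W) := by
    unfold bd
    rw [← Set.ncard_coe_finset]
    apply Set.ncard_congr (fun p _ => (p.2, p.1))
    · intro p hp
      simp only [Finset.coe_filter, Finset.mem_univ, true_and, Set.mem_ofPred_eq] at hp
      simp only [Set.mem_ofPred_eq, Finset.mem_coe]
      exact ⟨hp.2.2, hp.2.1, hp.1.symm⟩
    · rintro ⟨a, b⟩ ⟨c, d⟩ _ _ h
      simp only [Prod.mk.injEq] at h ⊢
      exact ⟨h.2, h.1⟩
    · rintro ⟨a, b⟩ hp
      simp only [Set.mem_ofPred_eq, Finset.mem_coe] at hp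
      refine ⟨(b, a), ?_, rfl⟩
      simp only [Finset.coe_filter, Finset.mem_univ, true_and, Set.mem_ofPred_eq]
      exact ⟨hp.2.2.symm, hp.2.1, hp.1⟩
  have h3 : (Finset.univ.filter fun p : W × W => Γ.Adj p.1 p.2 ∧ p.1 ∈ H).card ≤ k * H.card := by
    have h4 : (Finset.univ.filter fun p : W × W => Γ.Adj p.1 p.2 ∧ p.1 ∈ H) ⊆
        H.biUnion fun a => (Finset.univ.filter fun b => Γ.Adj a b).image fun b => (a, b) := by
      rintro ⟨a, b⟩ hp
      simp only [Finset.mem_filter, Finset.mem_univ, true_and] at hp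
      simp only [Finset.mem_biUnion, Finset.mem_image, Finset.mem_filter, Finset.mem_univ,
        true_and]
      exact ⟨a, hp.2, b, hp.1, rfl⟩
    refine (Finset.card_le_card h4).trans (Finset.card_biUnion_le.trans ?_)
    rw [mul_comm, ← smul_eq_mul]
    refine Finset.sum_le_card_nsmul _ _ _ fun a _ => ?_
    refine Finset.card_image_le.trans ?_
    have h5 := hdeg a
    have h6 : Γ.neighborSet a = ((Finset.univ.filter fun b => Γ.Adj a b : Finset W) : Set W) := by
      ext b
      simp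
    rw [h6, Set.ncard_coe_finset] at h5
    exact h5
  calc (prel Γ C H).card ≤ _ := Finset.card_le_card h1
    _ ≤ _ := Finset.card_union_le _ _
    _ ≤ bd Γ (C : Set W) + k * H.card := by rw [h2]; omega

/-- HC -/
theorem hc : HcStmt := by
  classical
  intro W _ _ Γ k M hk hM hdeg C ℋ hℋ
  have hk0 : (0 : ℝ) < k := by
    have : 0 < k := by omega
    exact_mod_cast this
  have hM0 : (0 : ℝ) < M := by
    have : 0 < M := by omega
    exact_mod_cast this
  choose! D hD1 hD2 hD3 hD4 using fun h (hh : h ∈ ℋ) => orient (hℋ h hh)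
  -- the events
  let A : Finset W × Finset (Sym2 W) × Finset W → Finset ((W × W → Fin k) × (W → Fin M)) :=
    fun h => (Finset.univ.filter fun b : W × W → Fin k =>
        ∀ p ∈ prel Γ C h.1, ((b p).val = 0 ↔ p ∈ D h)) ×ˢ
      (Finset.univ.filter fun r : W → Fin M => ∀ w ∈ C, ((r w).val = 0 ↔ w ∈ h.2.2))
  have hDsub : ∀ h ∈ ℋ, D h ⊆ prel Γ C h.1 := by
    intro h hh p hp
    obtain ⟨h1, h2, h3⟩ := hD3 h hh p hp
    simp only [prel, Finset.mem_filter, Finset.mem_univ, true_and]
    exact ⟨h1, h2, (hℋ h hh).1 h3⟩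
  have hle : ∀ h ∈ ℋ, wtH Γ k M C h.1 h.2.1 h.2.2 *
      ((Fintype.card ((W × W → Fin k) × (W → Fin M)) : ℕ) : ℝ) ≤ ((A h).card : ℝ) := by
    intro h hh
    have hRC : h.2.2 ⊆ C := (hℋ h hh).2.1.trans (hℋ h hh).1
    have h1 := cnt hk (prel Γ C h.1) (D h) (hDsub h hh)
    have h2 := cnt hM C h.2.2 hRC
    have h3 := card_prel Γ hdeg C h.1
    have h3' : ((prel Γ C h.1).card : ℝ) ≤ bd Γ (C : Set W) + k * h.1.card := by
      exact_mod_cast h3
    have hexp : Real.exp (-(2 * ((bd Γ (C : Set W) : ℝ) + k * h.1.card) / k)) ≤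
        Real.exp (-(2 * ((prel Γ C h.1).card : ℝ) / k)) := by
      apply Real.exp_le_exp.2
      apply neg_le_neg
      gcongr
    have h4 : (k : ℝ) ^ Fintype.card (W × W) * (((k : ℝ) ^ (D h).card)⁻¹ *
        Real.exp (-(2 * ((bd Γ (C : Set W) : ℝ) + k * h.1.card) / k))) ≤
        ((Finset.univ.filter fun b : W × W → Fin k =>
        ∀ p ∈ prel Γ C h.1, ((b p).val = 0 ↔ p ∈ D h)).card : ℝ) := by
      refine le_trans ?_ h1
      gcongr
    have h5 := mul_le_mul h4 h2 (by positivity) (by positivity)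
    simp only [A]
    rw [Finset.card_product, Nat.cast_mul]
    refine le_trans (le_of_eq ?_) h5
    rw [Fintype.card_prod, Fintype.card_fun, Fintype.card_fun, Fintype.card_fin, Fintype.card_fin,
      hD1 h hh]
    unfold wtH
    push_cast
    have e1 : Real.exp (-(2 * (bd Γ (C : Set W) : ℝ) / k + 2 * (h.1.card : ℝ) +
        2 * (C.card : ℝ) / M)) =
        Real.exp (-(2 * ((bd Γ (C : Set W) : ℝ) + k * h.1.card) / k)) *
        Real.exp (-(2 * (C.card : ℝ) / M)) := by
      rw [← Real.exp_add]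
      congr 1
      field_simp
      ring
    rw [e1, mul_inv]
    ring
  have hdisj : ∀ h ∈ ℋ, ∀ h' ∈ ℋ, h ≠ h' → Disjoint (A h) (A h') := by
    intro h hh h' hh' hne
    rw [Finset.disjoint_left]
    rintro ⟨b, r⟩ hb hb'
    apply hne
    simp only [A, Finset.mem_product, Finset.mem_filter, Finset.mem_univ, true_and] at hb hb'
    have hRC : h.2.2 ⊆ C := (hℋ h hh).2.1.trans (hℋ h hh).1
    have hRC' : h'.2.2 ⊆ C := (hℋ h' hh').2.1.trans (hℋ h' hh').1
    have hR : h.2.2 = h'.2.2 := by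
      ext w
      constructor
      · intro hw
        exact (hb'.2 w (hRC hw)).1 ((hb.2 w (hRC hw)).2 hw)
      · intro hw
        exact (hb.2 w (hRC' hw)).1 ((hb'.2 w (hRC' hw)).2 hw)
    have hsub : ∀ h₁ ∈ ℋ, ∀ h₂ ∈ ℋ, h₁.2.2 = h₂.2.2 →
        (∀ p ∈ prel Γ C h₁.1, ((b p).val = 0 ↔ p ∈ D h₁)) →
        (∀ p ∈ prel Γ C h₂.1, ((b p).val = 0 ↔ p ∈ D h₂)) → h₁.1 ⊆ h₂.1 := by
      intro h₁ hh₁ h₂ hh₂ hR12 hb₁ hb₂
      apply hD4 h₁ hh₁
      · rw [hR12]
        exact (hℋ h₂ hh₂).2.1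
      · intro p hp hp1
        have hp0 := (hb₁ p (hDsub h₁ hh₁ hp)).2 hp
        have hpm : p ∈ prel Γ C h₂.1 := by
          simp only [prel, Finset.mem_filter, Finset.mem_univ, true_and]
          exact ⟨(hD3 h₁ hh₁ p hp).1, hp1, (hℋ h₁ hh₁).1 (hD3 h₁ hh₁ p hp).2.2⟩
        exact (hD3 h₂ hh₂ p ((hb₂ p hpm).1 hp0)).2.2
    have hH : h.1 = h'.1 := Finset.Subset.antisymm
      (hsub h hh h' hh' hR hb.1 hb'.1) (hsub h' hh' h hh hR.symm hb'.1 hb.1)
    have hDD : D h = D h' := by
      ext p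
      constructor
      · intro hp
        have h1 := hDsub h hh hp
        have h2 := (hb.1 p h1).2 hp
        rw [hH] at h1
        exact (hb'.1 p h1).1 h2
      · intro hp
        have h1 := hDsub h' hh' hp
        have h2 := (hb'.1 p h1).2 hp
        rw [← hH] at h1
        exact (hb.1 p h1).1 h2
    have hF : h.2.1 = h'.2.1 := by
      ext l
      rw [hD2 h hh l, hD2 h' hh' l, hDD]
    exact Prod.ext hH (Prod.ext hF hR)
  have hcard : 0 < ((Fintype.card ((W × W → Fin k) × (W → Fin M)) : ℕ) : ℝ) := by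
    rw [Fintype.card_prod, Fintype.card_fun, Fintype.card_fun, Fintype.card_fin, Fintype.card_fin]
    push_cast
    positivity
  have hsum : (∑ h ∈ ℋ, wtH Γ k M C h.1 h.2.1 h.2.2) *
      ((Fintype.card ((W × W → Fin k) × (W → Fin M)) : ℕ) : ℝ) ≤
      ((Fintype.card ((W × W → Fin k) × (W → Fin M)) : ℕ) : ℝ) := by
    rw [Finset.sum_mul]
    refine (Finset.sum_le_sum hle).trans ?_
    rw [← Nat.cast_sum, ← Finset.card_biUnion hdisj]
    exact_mod_cast Finset.card_le_univ _
  nlinarith [hsum, hcard]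

end Pool.Agent.CGP.H93
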